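import Pool.Agent.MP_6600f1_ag.Reach

/-! Nonsingular real plane curves of degree `2 k` whose `r ≤ k (k + 1) / 2 + 1` ovals contract
simultaneously to solitary nodes form one rigid isotopy class. -/

namespace Pool.Agent.Results.MP_6600f1_ag.Contractible

open Pool.Agent.MP_6600f1_ag

theorem result (k r : ℕ) (hk : 3 ≤ k) (hr : 2 * r ≤ k * (k + 1) + 2) (F G : Form)
    (nF : Nonsing F) (nG : Nonsing G) (sF : Contractible (2 * k) F r)
    (sG : Contractible (2 * k) G r) : RigidIso (2 * k) F G :=
  contractible_rigid hk hr nF nG sF sG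

end Pool.Agent.Results.MP_6600f1_ag.Contractible
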