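import Mathlib
import Pool.Agent.MP_6600f1_ag.ce.Basic
import Pool.Agent.MP_6600f1_ag.ce.Cov
import Pool.Agent.MP_6600f1_ag.ce.Dom
import Pool.Agent.MP_6600f1_ag.ce.Star
import Pool.Agent.MP_6600f1_ag.ce.N2
import Pool.Agent.MP_6600f1_ag.ce.OvI
import Pool.Agent.MP_6600f1_ag.ce.OvB
import Pool.Agent.MP_6600f1_ag.ce.Unn
import Pool.Agent.MP_6600f1_ag.ce.TN
import Pool.Agent.MP_6600f1_ag.ce.Gl
import Pool.Agent.MP_6600f1_ag.ce.NV
import Pool.Agent.MP_6600f1_ag.ce.Loop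
import Pool.Agent.MP_6600f1_ag.ce.PNP
import Pool.Agent.MP_6600f1_ag.ce.SS
import Pool.Agent.MP_6600f1_ag.ce.BD
import Pool.Agent.MP_6600f1_ag.ce.Link
import Pool.Agent.MP_6600f1_ag.ce.Conn
import Pool.Agent.MP_6600f1_ag.ce.Coc
import Pool.Agent.MP_6600f1_ag.ce.Final

/-! Two nonsingular unnested real plane curves of degree 10 with 28 ovals each that are not
rigidly isotopic. -/

namespace Pool.Agent.Results.MP_6600f1_ag.Counterexample

open Pool.Agent.MP_6600f1_ag Pool.Agent.MP_6600f1_ag.ce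

theorem result : ∃ F G : Form, F.IsHomogeneous 10 ∧ G.IsHomogeneous 10 ∧ Nonsing F ∧ Nonsing G ∧
    Unnested F 28 ∧ Unnested G 28 ∧ ¬ RigidIso 10 F G := by
  have hB := basicS
  have hP := phS hB
  have c1 := covS1 hB
  have c2 := covS2 hB
  have d1 := domS1 hB c1
  have d2 := domS2 hB c2
  have n1 := nsS1 hB c1
  have n2 := nsS2 hB c2
  have o1 : ∀ m ∈ D1.ngl, Ov D1 m := fun m hm => by
    by_cases h : ∀ i, ex m i ≠ 0
    · exact ovIS1 hB starS d1 m hm h
    · exact ovBS1 hB starS d1 m hm (by simpa using h)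
  have o2 : ∀ m ∈ D2.ngl, Ov D2 m := fun m hm => by
    by_cases h : ∀ i, ex m i ≠ 0
    · exact ovIS2 hB starS d2 m hm h
    · exact ovBS2 hB starS d2 m hm (by simpa using h)
  have pn := pnS hB hP
  have pp := ppS hB hP
  have ss := ssS hB hP
  have bd := bdS hB hP
  have nv := nvS hB hP
  have lk := linkS hB pn pp ss bd
  have cc := cocS hB hP nv lk (symS hB pn pp ss bd) (posS hB hP) (conS hB hP)
  exact ⟨tp D1, tp D2, (hB D1).1, (hB D2).1, n1, n2, unnS1 hB d1 o1, unnS2 hB d2 o2,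
    not_rigid hB tnS (not_nn hB c1 glS nv lk cc (densS hB n1) noRoot (loopS hB hP))
      (n2S hB starS) (qS hB d1) q2S⟩

end Pool.Agent.Results.MP_6600f1_ag.Counterexample
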