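import Pool.Agent.MP_6600f1_ag.Star

/-! Nonsingular star-shaped real plane curves of even degree with the same number `r` are rigidly
isotopic. -/

namespace Pool.Agent.Results.MP_6600f1_ag.StarFamily

open Pool.Agent.MP_6600f1_ag

theorem result (k r : ℕ) (hk : 2 ≤ k) (F G : Form) (hF : F.IsHomogeneous (2 * k))
    (hG : G.IsHomogeneous (2 * k)) (nF : Nonsing F) (nG : Nonsing G) (sF : StarCurve F r)
    (sG : StarCurve G r) : RigidIso (2 * k) F G :=
  star_rigid hk hF hG nF nG sF sG

end Pool.Agent.Results.MP_6600f1_ag.StarFamily
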